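import Mathlib

/-!
Independence of functions of disjoint finite sets of coordinates under an infinite product of
copies of a probability measure.
-/

open MeasureTheory ProbabilityTheory

namespace Pool.Agent.Q209.Prod

/-- Functions of disjoint finite sets of coordinates are independent. -/
theorem indep_of_dep {ι X A B : Type*} [MeasurableSpace X] [MeasurableSpace A] [MeasurableSpace B]
    (ν : Measure X) [IsProbabilityMeasure ν] (S T : Finset ι) (hST : Disjoint S T)
    {F : (ι → X) → A} {G : (ι → X) → B} (hF : Measurable F) (hG : Measurable G)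
    (hFS : ∀ ω ω' : ι → X, (∀ i ∈ S, ω i = ω' i) → F ω = F ω')
    (hGT : ∀ ω ω' : ι → X, (∀ i ∈ T, ω i = ω' i) → G ω = G ω') :
    IndepFun F G (Measure.infinitePi fun _ : ι => ν) := by
  classical
  obtain ⟨x0⟩ : Nonempty X := by
    by_contra hcon
    rw [not_nonempty_iff] at hcon
    have h1 : ν Set.univ = 1 := measure_univ
    rw [Set.univ_eq_empty_iff.mpr hcon, measure_empty] at h1
    exact zero_ne_one h1
  have h1 : iIndepFun (fun (i : ι) (ω : ι → X) => ω i) (Measure.infinitePi fun _ : ι => ν) :=
    iIndepFun_infinitePi (X := fun _ x => x) (fun _ => measurable_id)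
  have h2 := h1.indepFun_finset S T hST (fun i => measurable_pi_apply i)
  let ext : (U : Finset ι) → (U → X) → (ι → X) := fun U r i =>
    if h : i ∈ U then r ⟨i, h⟩ else x0
  have hext : ∀ U, Measurable (ext U) := by
    intro U
    refine measurable_pi_lambda _ fun i => ?_
    by_cases h : i ∈ U
    · simp only [ext, dif_pos h]
      exact measurable_pi_apply _
    · simp only [ext, dif_neg h]
      exact measurable_const
  have h3 := h2.comp (φ := fun r => F (ext S r)) (ψ := fun r => G (ext T r))
    (hF.comp (hext S)) (hG.comp (hext T))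
  have e1 : F = (fun r => F (ext S r)) ∘ (fun (ω : ι → X) (i : S) => ω i) := by
    funext ω
    simp only [Function.comp]
    apply hFS
    intro i hi
    simp only [ext]
    rw [dif_pos hi]
  have e2 : G = (fun r => G (ext T r)) ∘ (fun (ω : ι → X) (i : T) => ω i) := by
    funext ω
    simp only [Function.comp]
    apply hGT
    intro i hi
    simp only [ext]
    rw [dif_pos hi]
  rw [e1, e2]
  exact h3

/-- Events depending on disjoint finite sets of coordinates are independent. -/
theorem inter_of_dep {ι X : Type*} [MeasurableSpace X]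
    (ν : Measure X) [IsProbabilityMeasure ν] (S T : Finset ι) (hST : Disjoint S T)
    {A B : Set (ι → X)} (hA : MeasurableSet A) (hB : MeasurableSet B)
    (hAS : ∀ ω ω' : ι → X, (∀ i ∈ S, ω i = ω' i) → (ω ∈ A ↔ ω' ∈ A))
    (hBT : ∀ ω ω' : ι → X, (∀ i ∈ T, ω i = ω' i) → (ω ∈ B ↔ ω' ∈ B)) :
    (Measure.infinitePi fun _ : ι => ν) (A ∩ B) =
      (Measure.infinitePi fun _ : ι => ν) A * (Measure.infinitePi fun _ : ι => ν) B := by
  have h := indep_of_dep ν S T hST (F := fun ω => (ω ∈ A : Prop)) (G := fun ω => (ω ∈ B : Prop))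
    (measurable_mem.mpr hA) (measurable_mem.mpr hB)
    (fun ω ω' h => propext (hAS ω ω' h)) (fun ω ω' h => propext (hBT ω ω' h))
  have h2 := h.measure_inter_preimage_eq_mul {True} {True}
    (measurableSet_singleton _) (measurableSet_singleton _)
  have eA : (fun ω => (ω ∈ A : Prop)) ⁻¹' {True} = A := by ext ω; simp
  have eB : (fun ω => (ω ∈ B : Prop)) ⁻¹' {True} = B := by ext ω; simp
  rwa [eA, eB] at h2

end Pool.Agent.Q209.Prod
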