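import Mathlib
import Pool.Agent.Q209.Prod.Ind

/-!
Expectation of a product of functions of disjoint finite sets of coordinates.
-/

open MeasureTheory ProbabilityTheory

namespace Pool.Agent.Q209.Prod

theorem lintegral_prod_of_dep {ι X : Type*} [MeasurableSpace X]
    (ν : Measure X) [IsProbabilityMeasure ν] {n : ℕ} (f : Fin n → (ι → X) → ENNReal)
    (D : Fin n → Finset ι) (hf : ∀ i, Measurable (f i))
    (hdep : ∀ i, ∀ ω ω' : ι → X, (∀ j ∈ D i, ω j = ω' j) → f i ω = f i ω')
    (hdisj : ∀ i j, i ≠ j → Disjoint (D i) (D j)) :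
    ∫⁻ ω, ∏ i, f i ω ∂(Measure.infinitePi fun _ : ι => ν) =
      ∏ i, ∫⁻ ω, f i ω ∂(Measure.infinitePi fun _ : ι => ν) := by
  classical
  induction n with
  | zero => simp
  | succ n ih =>
    simp only [Fin.prod_univ_castSucc]
    have h1 := indep_of_dep ν ((Finset.univ : Finset (Fin n)).biUnion fun i => D i.castSucc)
      (D (Fin.last n)) ?_ (F := fun ω => ∏ i : Fin n, f i.castSucc ω) (G := f (Fin.last n))
      (Finset.measurable_fun_prod _ fun i _ => hf _) (hf _) ?_ (hdep _)
    · have h2 := lintegral_mul_eq_lintegral_mul_lintegral_of_indepFun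
        (Finset.measurable_fun_prod _ fun i _ => hf _) (hf _) h1
      simp only [Pi.mul_apply] at h2
      rw [h2]
      rw [ih (fun i => f i.castSucc) (fun i => D i.castSucc) (fun i => hf _) (fun i => hdep _)
        (fun i j hij => hdisj _ _ (fun h => hij (Fin.castSucc_injective n h)))]
    · rw [Finset.disjoint_biUnion_left]
      intro i _
      exact hdisj _ _ (Fin.castSucc_lt_last i).ne
    · intro ω ω' h
      refine Finset.prod_congr rfl fun i _ => ?_
      exact hdep _ ω ω' fun j hj => h j (Finset.mem_biUnion.2 ⟨i, Finset.mem_univ _, hj⟩)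

end Pool.Agent.Q209.Prod
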