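import Mathlib

/-!
Sums against probability mass functions.
-/

open MeasureTheory ProbabilityTheory

namespace Pool.Agent.Q209.Prod

/-- expectation under the image of a uniform law -/
theorem tsum_unif_map {α V : Type*} [Fintype α] [Nonempty α] (f : α → V) (h : V → ENNReal) :
    ∑' y, h y * ((PMF.uniformOfFintype α).map f) y =
      (∑ j, h (f j)) * (Fintype.card α : ENNReal)⁻¹ := by
  classical
  simp only [PMF.map_apply, PMF.uniformOfFintype_apply]
  have h1 : ∀ y, h y * ∑' a, (if y = f a then (Fintype.card α : ENNReal)⁻¹ else 0) =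
      ∑ a, if y = f a then h y * (Fintype.card α : ENNReal)⁻¹ else 0 := by
    intro y
    rw [tsum_fintype, Finset.mul_sum]
    refine Finset.sum_congr rfl fun a _ => ?_
    split_ifs <;> simp
  simp only [h1]
  rw [← tsum_fintype (L := .unconditional α)]
  simp only [← tsum_fintype (L := .unconditional α)]
  rw [ENNReal.tsum_comm, ← ENNReal.tsum_mul_right]
  refine tsum_congr fun a => ?_
  rw [tsum_eq_single (f a)]
  · rw [if_pos rfl]
  · intro y hy
    rw [if_neg hy]

end Pool.Agent.Q209.Prod
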